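import Pool.Agent.WR4.Stmts

/-!
# Row SYF of squad WR4
-/

set_option autoImplicit false

namespace Pool.Agent.WR4.H25

open Pool.Agent.WR4
open scoped BigOperators Topology
open Filter

/-- the inner sum -/
noncomputable def inn (n : ℕ) (w : ZMod (3 ^ (n + 1))) : ℝ :=
  ∑ y : ZMod (3 ^ n), if w = 3 * ((y.val : ℕ) : ZMod (3 ^ (n + 1))) + 1 then Sy n y else 0

theorem phi_inj (n : ℕ) (y y' : ZMod (3 ^ n))
    (h : (3 * ((y.val : ℕ) : ZMod (3 ^ (n + 1))) + 1 : ZMod (3 ^ (n + 1))) =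
      3 * ((y'.val : ℕ) : ZMod (3 ^ (n + 1))) + 1) : y = y' := by
  have h1 : ((3 * y.val : ℕ) : ZMod (3 ^ (n + 1))) = ((3 * y'.val : ℕ) : ZMod (3 ^ (n + 1))) := by
    push_cast
    exact add_right_cancel h
  rw [ZMod.natCast_eq_natCast_iff'] at h1
  have hy := ZMod.val_lt y
  have hy' := ZMod.val_lt y'
  have h2 : 3 * y.val < 3 ^ (n + 1) := by rw [pow_succ]; omega
  have h3 : 3 * y'.val < 3 ^ (n + 1) := by rw [pow_succ]; omega
  rw [Nat.mod_eq_of_lt h2, Nat.mod_eq_of_lt h3] at h1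
  exact ZMod.val_injective _ (by omega)

theorem inn_bounds (n : ℕ) (h : ∀ z : ZMod (3 ^ n), 0 ≤ Sy n z ∧ Sy n z ≤ 1)
    (w : ZMod (3 ^ (n + 1))) : 0 ≤ inn n w ∧ inn n w ≤ 1 := by
  classical
  constructor
  · refine Finset.sum_nonneg fun y _ => ?_
    split_ifs
    · exact (h y).1
    · exact le_rfl
  · calc inn n w ≤ ∑ y : ZMod (3 ^ n),
          (if w = 3 * ((y.val : ℕ) : ZMod (3 ^ (n + 1))) + 1 then (1 : ℝ) else 0) := by
          refine Finset.sum_le_sum fun y _ => ?_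
          split_ifs
          · exact (h y).2
          · exact le_rfl
      _ = ((Finset.univ.filter fun y : ZMod (3 ^ n) =>
          w = 3 * ((y.val : ℕ) : ZMod (3 ^ (n + 1))) + 1).card : ℝ) := by
          rw [Finset.sum_boole]
      _ ≤ 1 := by
          have h1 : (Finset.univ.filter fun y : ZMod (3 ^ n) =>
              w = 3 * ((y.val : ℕ) : ZMod (3 ^ (n + 1))) + 1).card ≤ 1 := by
            rw [Finset.card_le_one]
            intro a ha b hb
            rw [Finset.mem_filter] at ha hb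
            exact phi_inj n a b (ha.2.symm.trans hb.2)
          exact_mod_cast h1

theorem sy_succ (n : ℕ) (z : ZMod (3 ^ (n + 1))) :
    Sy (n + 1) z = ∑' p : ℕ, (1 / 2 : ℝ) ^ (p + 1) * inn n ((2 : ZMod (3 ^ (n + 1))) ^ (p + 1) * z) := by
  rw [Sy]
  rfl

theorem geo : HasSum (fun p : ℕ => (1 / 2 : ℝ) ^ (p + 1)) 1 := by
  have h1 := (hasSum_geometric_of_lt_one (r := (1 / 2 : ℝ)) (by norm_num) (by norm_num)).mul_left
    (1 / 2 : ℝ)
  have h2 : (1 / 2 : ℝ) * (1 - 1 / 2)⁻¹ = 1 := by norm_num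
  rw [h2] at h1
  refine h1.congr_fun ?_
  intro p
  rw [pow_succ]
  ring

theorem summ (n : ℕ) (h : ∀ z : ZMod (3 ^ n), 0 ≤ Sy n z ∧ Sy n z ≤ 1) (z : ZMod (3 ^ (n + 1))) :
    Summable (fun p : ℕ => (1 / 2 : ℝ) ^ (p + 1) *
      inn n ((2 : ZMod (3 ^ (n + 1))) ^ (p + 1) * z)) := by
  refine Summable.of_nonneg_of_le (fun p => ?_) (fun p => ?_) geo.summable
  · exact mul_nonneg (by positivity) (inn_bounds n h _).1
  · exact mul_le_of_le_one_right (by positivity) (inn_bounds n h _).2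

theorem bounds (n : ℕ) : ∀ z : ZMod (3 ^ n), 0 ≤ Sy n z ∧ Sy n z ≤ 1 := by
  induction n with
  | zero =>
    intro z
    rw [Sy]
    norm_num
  | succ n ih =>
    intro z
    rw [sy_succ]
    constructor
    · exact tsum_nonneg fun p => mul_nonneg (by positivity) (inn_bounds n ih _).1
    · calc ∑' p : ℕ, (1 / 2 : ℝ) ^ (p + 1) *
            inn n ((2 : ZMod (3 ^ (n + 1))) ^ (p + 1) * z)
          ≤ ∑' p : ℕ, (1 / 2 : ℝ) ^ (p + 1) := (summ n ih z).tsum_le_tsum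
            (fun p => mul_le_of_le_one_right (by positivity) (inn_bounds n ih _).2) geo.summable
        _ = 1 := geo.tsum_eq

theorem syf : SyfStmt := by
  refine ⟨bounds, fun n z => ?_⟩
  change _ = (inn n (2 * z) + Sy (n + 1) (2 * z)) / 2
  rw [sy_succ, sy_succ, (summ n (bounds n) z).tsum_eq_zero_add]
  have h1 : ∑' p : ℕ, (1 / 2 : ℝ) ^ (p + 1 + 1) *
      inn n ((2 : ZMod (3 ^ (n + 1))) ^ (p + 1 + 1) * z) =
      1 / 2 * ∑' p : ℕ, (1 / 2 : ℝ) ^ (p + 1) *
        inn n ((2 : ZMod (3 ^ (n + 1))) ^ (p + 1) * (2 * z)) := by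
    rw [← tsum_mul_left]
    congr 1
    funext p
    have h2 : (2 : ZMod (3 ^ (n + 1))) ^ (p + 1 + 1) * z =
        (2 : ZMod (3 ^ (n + 1))) ^ (p + 1) * (2 * z) := by
      rw [pow_succ _ (p + 1)]
      ring
    rw [h2, pow_succ _ (p + 1)]
    ring
  rw [h1]
  simp only [zero_add, pow_one]
  ring

end Pool.Agent.WR4.H25
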